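import Mathlib

/-! Combinatorial core: families of pairwise adjacent tuples without large arrays. -/

namespace Pool.Agent.MP_842ee2_lc

open Finset

variable {V ι : Type*}

/-- A list of `n` members of `K` with `x i` and `y j` related whenever `x` comes before `y`. -/
def Lad (R : V → V → Prop) (K : Finset (ι → V)) (e : ι × ι) (n : ℕ) : Prop :=
  ∃ L : List (ι → V), L.length = n ∧ (∀ x ∈ L, x ∈ K) ∧
    L.Pairwise (fun x y => R (x e.1) (y e.2))

/-- Any two different members of `K` are related at some pair of positions. -/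
def Adj (R : V → V → Prop) (K : Finset (ι → V)) : Prop :=
  ∀ x ∈ K, ∀ y ∈ K, x ≠ y → ∃ e : ι × ι, R (x e.1) (y e.2)

theorem Lad.mono {R : V → V → Prop} {K K' : Finset (ι → V)} {e : ι × ι} {n : ℕ}
    (h : Lad R K e n) (hK : K ⊆ K') : Lad R K' e n := by
  obtain ⟨L, h1, h2, h3⟩ := h
  exact ⟨L, h1, fun x hx => hK (h2 x hx), h3⟩

theorem Adj.mono {R : V → V → Prop} {K K' : Finset (ι → V)}
    (h : Adj R K') (hK : K ⊆ K') : Adj R K :=
  fun x hx y hy hxy => h x (hK hx) y (hK hy) hxy

theorem ramsey_aux [Fintype ι] [DecidableEq ι] (R : V → V → Prop) :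
    ∀ (N : ℕ) (b : ι × ι → ℕ) (K : Finset (ι → V)), ∑ e, b e = N → Adj R K →
      (∀ e, ¬ Lad R K e (b e)) → K.card ≤ (Fintype.card (ι × ι) + 1) ^ N := by
  classical
  intro N
  induction N with
  | zero =>
    intro b K hb hA hL
    rw [pow_zero, Finset.card_le_one]
    intro x hx y hy
    by_contra hxy
    obtain ⟨e, -⟩ := hA x hx y hy hxy
    have : b e = 0 := (Finset.sum_eq_zero_iff.1 hb) e (mem_univ _)
    exact hL e ⟨[], by simp [this], by simp, by simp⟩
  | succ N ih =>
    intro b K hb hA hL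
    rcases K.eq_empty_or_nonempty with rfl | ⟨v, hv⟩
    · simp
    have hpos : ∀ e, 0 < b e := fun e => Nat.pos_of_ne_zero fun h0 =>
      hL e ⟨[], by simp [h0], by simp, by simp⟩
    have hsub : K ⊆ insert v (univ.biUnion fun e : ι × ι => K.filter fun y => R (v e.1) (y e.2)) := by
      intro y hy
      by_cases hyv : y = v
      · simp [hyv]
      · obtain ⟨e, he⟩ := hA v hv y hy (Ne.symm hyv)
        exact mem_insert_of_mem (mem_biUnion.2 ⟨e, mem_univ _, mem_filter.2 ⟨hy, he⟩⟩)
    have hcard : ∀ e : ι × ι, (K.filter fun y => R (v e.1) (y e.2)).card ≤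
        (Fintype.card (ι × ι) + 1) ^ N := by
      intro e
      refine ih (Function.update b e (b e - 1)) _ ?_ (hA.mono (filter_subset _ _)) ?_
      · rw [Finset.sum_update_of_mem (mem_univ _)]
        have h1 := Finset.add_sum_erase univ b (mem_univ e)
        rw [← Finset.sdiff_singleton_eq_erase] at h1
        have := hpos e
        omega
      · intro e' hl
        by_cases he : e' = e
        · subst he
          obtain ⟨L, h1, h2, h3⟩ := hl
          rw [Function.update_self] at h1
          refine hL e' ⟨v :: L, ?_, ?_, ?_⟩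
          · have := hpos e'
            simp only [List.length_cons]; omega
          · intro x hx
            rcases List.mem_cons.1 hx with rfl | hx
            · exact hv
            · exact (mem_filter.1 (h2 x hx)).1
          · exact List.pairwise_cons.2 ⟨fun y hy => (mem_filter.1 (h2 y hy)).2, h3⟩
        · rw [Function.update_of_ne he] at hl
          exact hL e' (hl.mono (filter_subset _ _))
    have h1 := (card_le_card hsub).trans (card_insert_le _ _)
    have h2 := (card_biUnion_le (s := (univ : Finset (ι × ι)))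
      (t := fun e : ι × ι => K.filter fun y => R (v e.1) (y e.2))).trans
      (Finset.sum_le_card_nsmul _ _ _ fun e _ => hcard e)
    rw [card_univ, smul_eq_mul] at h2
    have h3 : 1 ≤ (Fintype.card (ι × ι) + 1) ^ N := Nat.one_le_pow _ _ (Nat.succ_pos _)
    rw [pow_succ]
    nlinarith

/-- The Ramsey bound. -/
def ram (c m : ℕ) : ℕ := (c + 1) ^ (c * m)

theorem ramsey [Fintype ι] (R : V → V → Prop) (m : ℕ) (K : Finset (ι → V)) (hA : Adj R K)
    (hL : ∀ e, ¬ Lad R K e m) : K.card ≤ ram (Fintype.card (ι × ι)) m := by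
  classical
  exact ramsey_aux R _ (fun _ => m) K (by simp) hA hL

/-- `Y` is an array with `r` rows of length `m`, all of whose paths lie in members of `K`. -/
def Arr (R : V → V → Prop) (K : Finset (ι → V)) {r m : ℕ} (Y : Fin r → Fin m → V × V) : Prop :=
  (∀ ρ u w, u < w → R (Y ρ u).1 (Y ρ w).2) ∧
    ∀ g : Fin r → Fin m, ∃ x ∈ K, ∀ ρ, (∃ i, x i = (Y ρ (g ρ)).1) ∧ ∃ j, x j = (Y ρ (g ρ)).2

/-- `K` has no array with `r` rows of length `m`. -/
def NoArr (R : V → V → Prop) (K : Finset (ι → V)) (r m : ℕ) : Prop :=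
  ∀ Y : Fin r → Fin m → V × V, ¬ Arr R K Y

theorem Arr.mono {R : V → V → Prop} {K K' : Finset (ι → V)} {r m : ℕ}
    {Y : Fin r → Fin m → V × V} (h : Arr R K Y) (hK : K ⊆ K') : Arr R K' Y :=
  ⟨h.1, fun g => by
    obtain ⟨x, hx, h'⟩ := h.2 g
    exact ⟨x, hK hx, h'⟩⟩

theorem NoArr.mono {R : V → V → Prop} {K K' : Finset (ι → V)} {r m : ℕ}
    (h : NoArr R K' r m) (hK : K ⊆ K') : NoArr R K r m :=
  fun Y hY => h Y (hY.mono hK)

open Classical in
/-- The members of `K` that agree with `x` on `S`. -/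
noncomputable def fib (K : Finset (ι → V)) (S : Finset ι) (x : ι → V) : Finset (ι → V) :=
  K.filter fun y => ∀ i ∈ S, y i = x i

theorem fib_subset (K : Finset (ι → V)) (S : Finset ι) (x : ι → V) : fib K S x ⊆ K := by
  classical
  exact filter_subset _ _

theorem mem_fib {K : Finset (ι → V)} {S : Finset ι} {x y : ι → V} :
    y ∈ fib K S x ↔ y ∈ K ∧ ∀ i ∈ S, y i = x i := by
  classical
  simp [fib]

/-- Members whose fibres share an array `Y` carry no ladder inside `S`. -/
theorem no_lad {R : V → V → Prop} {K H : Finset (ι → V)} {r m : ℕ} {S : Finset ι}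
    (hK : NoArr R K (r + 1) m) {Y : Fin r → Fin m → V × V}
    (hH : ∀ x ∈ H, Arr R (fib K S x) Y) (hm : 0 < m) {e : ι × ι} (h1 : e.1 ∈ S) (h2 : e.2 ∈ S) :
    ¬ Lad R H e m := by
  rintro ⟨L, hL, hmem, hp⟩
  subst hL
  have hx : ∀ u : Fin L.length, L.get u ∈ H := fun u => hmem _ (List.get_mem _ _)
  refine hK (Fin.cons (fun u => (L.get u e.1, L.get u e.2)) Y) ⟨?_, ?_⟩
  · intro ρ
    refine Fin.cases ?_ (fun ρ => ?_) ρ
    · intro u w huw
      simpa using (List.pairwise_iff_get.1 hp) u w huw
    · intro u w huw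
      simpa using (hH _ (hx ⟨0, hm⟩)).1 ρ u w huw
  · intro g
    obtain ⟨y, hy, hyg⟩ := (hH _ (hx (g 0))).2 (fun ρ => g ρ.succ)
    obtain ⟨hyK, hyS⟩ := mem_fib.1 hy
    refine ⟨y, hyK, fun ρ => ?_⟩
    refine Fin.cases ?_ (fun ρ => ?_) ρ
    · exact ⟨⟨e.1, by simpa using hyS _ h1⟩, ⟨e.2, by simpa using hyS _ h2⟩⟩
    · simpa using hyg ρ

/-- Counting members whose fibres over `S` are small. -/
theorem card_small_fib [Fintype V] (K G : Finset (ι → V)) (S : Finset ι) (B : ℕ)
    (hGK : G ⊆ K) (hG : ∀ x ∈ G, (fib K S x).card ≤ B) :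
    G.card ≤ Fintype.card V ^ S.card * B := by
  classical
  have h := Finset.card_le_mul_card_image_of_maps_to (s := G)
    (t := (univ : Finset (S → V))) (f := fun x (i : S) => x i) (fun _ _ => mem_univ _) B ?_
  · rw [card_univ, Fintype.card_fun, Fintype.card_coe] at h
    rwa [mul_comm]
  · intro b _
    rcases (G.filter fun x => (fun i : S => x i) = b).eq_empty_or_nonempty with h0 | ⟨x, hx⟩
    · rw [h0]; simp
    · obtain ⟨hxG, hxb⟩ := mem_filter.1 hx
      refine (card_le_card ?_).trans (hG x hxG)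
      intro y hy
      obtain ⟨hyG, hyb⟩ := mem_filter.1 hy
      refine mem_fib.2 ⟨hGK hyG, fun i hi => ?_⟩
      exact congrFun (hyb.trans hxb.symm) ⟨i, hi⟩

theorem cover_step [Fintype V] [Fintype ι] (R : V → V → Prop) {r m s B : ℕ} (hm : 0 < m)
    (hV : 1 ≤ Fintype.card V)
    (ih : ∀ K : Finset (ι → V), Adj R K → NoArr R K r m → K.card ≤ B) :
    ∀ (C : List (Finset ι)), (∀ S ∈ C, S.card ≤ s) → ∀ K : Finset (ι → V), Adj R K →
      NoArr R K (r + 1) m → (∀ e : ι × ι, Lad R K e m → ∃ S ∈ C, e.1 ∈ S ∧ e.2 ∈ S) →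
      K.card ≤ (C.length + 1) * Fintype.card V ^ (2 * m * r * C.length) *
        (Fintype.card V ^ s * B + ram (Fintype.card (ι × ι)) m) := by
  classical
  intro C
  induction C with
  | nil =>
    intro _ K hA _ hL
    have := ramsey R m K hA (fun e he => by simpa using hL e he)
    simp only [List.length_nil, mul_zero, pow_zero]
    omega
  | cons S C ihC =>
    intro hs K hA hN hL
    set l := Fintype.card V with hl
    set D := l ^ s * B + ram (Fintype.card (ι × ι)) m with hD
    let G := K.filter fun x => NoArr R (fib K S x) r m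
    let H : (Fin r → Fin m → V × V) → Finset (ι → V) :=
      fun Y => K.filter fun x => Arr R (fib K S x) Y
    have hsub : K ⊆ G ∪ univ.biUnion H := by
      intro x hx
      by_cases h : NoArr R (fib K S x) r m
      · exact mem_union_left _ (mem_filter.2 ⟨hx, h⟩)
      · simp only [NoArr, not_forall, not_not] at h
        obtain ⟨Y, hY⟩ := h
        exact mem_union_right _ (mem_biUnion.2 ⟨Y, mem_univ _, mem_filter.2 ⟨hx, hY⟩⟩)
    have hG : G.card ≤ D := by
      have h1 := card_small_fib K G S B (filter_subset _ _) fun x hx =>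
        ih _ (hA.mono (fib_subset _ _ _)) (mem_filter.1 hx).2
      have h2 : l ^ S.card ≤ l ^ s := Nat.pow_le_pow_right hV (hs S (by simp))
      have h3 := Nat.mul_le_mul_right B h2
      rw [← hl] at h1
      omega
    have hH : ∀ Y, (H Y).card ≤ (C.length + 1) * l ^ (2 * m * r * C.length) * D := by
      intro Y
      refine ihC (fun S' h => hs S' (List.mem_cons_of_mem _ h)) _ (hA.mono (filter_subset _ _))
        (hN.mono (filter_subset _ _)) fun e he => ?_
      obtain ⟨S', hS', h1, h2⟩ := hL e (he.mono (filter_subset _ _))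
      rcases List.mem_cons.1 hS' with rfl | hS'
      · exact absurd he (no_lad hN (fun x hx => (mem_filter.1 hx).2) hm h1 h2)
      · exact ⟨S', hS', h1, h2⟩
    have h1 := (card_le_card hsub).trans (card_union_le _ _)
    have h2 := (card_biUnion_le (s := univ) (t := H)).trans
      (Finset.sum_le_card_nsmul _ _ _ fun Y _ => hH Y)
    have hc : (univ : Finset (Fin r → Fin m → V × V)).card = l ^ (2 * m * r) := by
      rw [card_univ, Fintype.card_fun, Fintype.card_fun, Fintype.card_prod, Fintype.card_fin,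
        Fintype.card_fin, ← hl, ← pow_two, ← pow_mul, ← pow_mul, mul_assoc]
    rw [hc, smul_eq_mul] at h2
    have h3 : 1 ≤ l ^ (2 * m * r * (C.length + 1)) := Nat.one_le_pow _ _ hV
    have h4 : l ^ (2 * m * r * (C.length + 1)) = l ^ (2 * m * r) * l ^ (2 * m * r * C.length) := by
      rw [← pow_add]; congr 1; ring
    simp only [List.length_cons]
    have h5 : D ≤ l ^ (2 * m * r * (C.length + 1)) * D := Nat.le_mul_of_pos_left _ h3
    have h6 : l ^ (2 * m * r) * ((C.length + 1) * l ^ (2 * m * r * C.length) * D) =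
        (C.length + 1) * (l ^ (2 * m * r * (C.length + 1)) * D) := by
      rw [h4]; ring
    have h7 : (C.length + 1 + 1) * l ^ (2 * m * r * (C.length + 1)) * D =
        (C.length + 1) * (l ^ (2 * m * r * (C.length + 1)) * D) +
          l ^ (2 * m * r * (C.length + 1)) * D := by ring
    omega

/-- The main bound, for a list `C` of sets of at most `s` positions covering all pairs. -/
theorem core_bound [Fintype ι] {m s : ℕ} (hm : 0 < m) (C : List (Finset ι))
    (hs : ∀ S ∈ C, S.card ≤ s) (hC : ∀ e : ι × ι, ∃ S ∈ C, e.1 ∈ S ∧ e.2 ∈ S) (r : ℕ) :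
    ∃ c : ℕ, ∀ (V : Type*) [Fintype V], 1 ≤ Fintype.card V → ∀ (R : V → V → Prop)
      (K : Finset (ι → V)), Adj R K → NoArr R K r m →
        K.card ≤ c * Fintype.card V ^ (r * s + 2 * m * r * r * C.length) := by
  induction r with
  | zero =>
    refine ⟨0, fun V _ _ R K _ hN => ?_⟩
    rcases K.eq_empty_or_nonempty with rfl | ⟨x, hx⟩
    · simp
    · exact absurd ⟨fun ρ => ρ.elim0, fun _ => ⟨x, hx, fun ρ => ρ.elim0⟩⟩ (hN fun ρ => ρ.elim0)
  | succ r ih =>
    obtain ⟨c, hc⟩ := ih
    refine ⟨(C.length + 1) * (c + ram (Fintype.card (ι × ι)) m), fun V _ hV R K hA hN => ?_⟩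
    have h := cover_step R hm hV (hc V hV R) C hs K hA hN fun e _ => hC e
    refine h.trans ?_
    set l := Fintype.card V
    set n := C.length
    set a := r * s + 2 * m * r * r * n
    have h1 : 1 ≤ l ^ (s + a) := Nat.one_le_pow _ _ hV
    have h2 : l ^ s * (c * l ^ a) + ram (Fintype.card (ι × ι)) m ≤
        (c + ram (Fintype.card (ι × ι)) m) * l ^ (s + a) := by
      have : ram (Fintype.card (ι × ι)) m ≤ ram (Fintype.card (ι × ι)) m * l ^ (s + a) :=
        Nat.le_mul_of_pos_right _ h1
      have h4 : l ^ s * (c * l ^ a) = c * l ^ (s + a) := by rw [pow_add]; ring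
      rw [add_mul, h4]
      omega
    have h3 : l ^ (2 * m * r * n) * l ^ (s + a) ≤
        l ^ ((r + 1) * s + 2 * m * (r + 1) * (r + 1) * n) := by
      rw [← pow_add]
      refine Nat.pow_le_pow_right hV ?_
      have : 2 * m * (r + 1) * (r + 1) * n = 2 * m * r * r * n + 2 * m * r * n +
        (2 * m * r * n + 2 * m * n) := by ring
      simp only [a]
      nlinarith [Nat.zero_le (2 * m * r * n + 2 * m * n)]
    calc (n + 1) * l ^ (2 * m * r * n) * (l ^ s * (c * l ^ a) + ram (Fintype.card (ι × ι)) m)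
        ≤ (n + 1) * l ^ (2 * m * r * n) * ((c + ram (Fintype.card (ι × ι)) m) * l ^ (s + a)) :=
          Nat.mul_le_mul_left _ h2
      _ = (n + 1) * (c + ram (Fintype.card (ι × ι)) m) * (l ^ (2 * m * r * n) * l ^ (s + a)) := by
          ring
      _ ≤ _ := Nat.mul_le_mul_left _ h3

/-- The bound for tuples indexed by `t ^ 3` positions. -/
theorem cube_bound (n t : ℕ) (hn : 0 < n) :
    ∃ c : ℕ, ∀ (V : Type*) [Fintype V], 1 ≤ Fintype.card V → ∀ (R : V → V → Prop)
      (K : Finset (Fin t × Fin (t * t) → V)), Adj R K → NoArr R K n n →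
        K.card ≤ c * Fintype.card V ^ ((2 * n + 2 * n ^ 3) * t ^ 2) := by
  classical
  let blk : Fin t × Fin t → Finset (Fin t × Fin (t * t)) :=
    fun p => ({p.1, p.2} : Finset (Fin t)) ×ˢ univ
  have h1 : ∀ S ∈ (univ : Finset (Fin t × Fin t)).toList.map blk, S.card ≤ 2 * (t * t) := by
    intro S hS
    obtain ⟨p, -, rfl⟩ := List.mem_map.1 hS
    simp only [blk, card_product, card_univ, Fintype.card_fin]
    exact Nat.mul_le_mul_right _ card_le_two
  have h2 : ∀ e : (Fin t × Fin (t * t)) × (Fin t × Fin (t * t)),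
      ∃ S ∈ (univ : Finset (Fin t × Fin t)).toList.map blk, e.1 ∈ S ∧ e.2 ∈ S := by
    intro e
    exact ⟨blk (e.1.1, e.2.1), List.mem_map.2 ⟨_, by simp, rfl⟩, by simp [blk], by simp [blk]⟩
  obtain ⟨c, hc⟩ := core_bound hn _ h1 h2 n
  refine ⟨c, fun V _ hV R K hA hN => (hc V hV R K hA hN).trans (le_of_eq ?_)⟩
  congr 2
  simp only [List.length_map, length_toList, card_univ, Fintype.card_prod, Fintype.card_fin]
  ring

end Pool.Agent.MP_842ee2_lc
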