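import Mathlib

/-! Positive types, 1-inconsistent families and the tree property of the second kind. -/

namespace Pool.Agent.MP_842ee2_lc

open FirstOrder FirstOrder.Language

universe u v w

variable {L : FirstOrder.Language.{u, v}} {α β : Type}

/-- The set of formulas `φ(x, a)`, `a ∈ p`, is consistent: each finite part is realized in `M`. -/
def Consistent (φ : L.Formula (α ⊕ β)) (M : Type w) [L.Structure M] (p : Set (β → M)) : Prop :=
  ∀ q : Finset (β → M), (q : Set (β → M)) ⊆ p →
    ∃ x : α → M, ∀ a ∈ q, φ.Realize (Sum.elim x a)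

/-- The conjunction of `φ(x, y_i)` over `i < t`. -/
noncomputable def conj (φ : L.Formula (α ⊕ β)) (t : ℕ) : L.Formula (α ⊕ (Fin t × β)) :=
  Formula.iInf fun i : Fin t => φ.relabel (Sum.map id fun b => (i, b))

/-- Some model of `T` has an array with `m`-inconsistent rows and consistent paths. -/
def HasTP2 (T : L.Theory) (φ : L.Formula (α ⊕ β)) (m : ℕ) : Prop :=
  ∃ (M : Theory.ModelType.{u, v, w} T) (a : ℕ → ℕ → β → M),
    (∀ i, ∀ s : Finset ℕ, s.card = m → ¬ Consistent φ M (a i '' s)) ∧
      ∀ g : ℕ → ℕ, Consistent φ M (Set.range fun i => a i (g i))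

/-- `F` is a family of pairwise 1-inconsistent positive `φ`-types of size at most `k` over `A`;
a type is given by its set of parameters. -/
def IsFamily (φ : L.Formula (α ⊕ β)) (M : Type w) [L.Structure M] (k : ℕ) (A : Finset (β → M))
    (F : Finset (Finset (β → M))) : Prop :=
  (∀ p ∈ F, p ⊆ A ∧ p.card ≤ k ∧ Consistent φ M p) ∧
    ∀ p ∈ F, ∀ q ∈ F, p ≠ q → ∃ a ∈ p, ∃ b ∈ q, ¬ Consistent φ M {a, b}

end Pool.Agent.MP_842ee2_lc
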