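import Pool.Agent.MP_842ee2_lc.Defs
import Pool.Agent.MP_842ee2_lc.Core

/-! From finite arrays to TP2, and from families of types to families of tuples. -/

namespace Pool.Agent.MP_842ee2_lc

open FirstOrder FirstOrder.Language Filter

universe u v w

variable {L : FirstOrder.Language.{u, v}} {α β : Type}

theorem consistent_pair {φ : L.Formula (α ⊕ β)} {M : Type w} [L.Structure M] {a b : β → M} :
    Consistent φ M {a, b} ↔ ∃ x : α → M, φ.Realize (Sum.elim x a) ∧ φ.Realize (Sum.elim x b) := by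
  classical
  constructor
  · intro h
    obtain ⟨x, hx⟩ := h {a, b} (by simp)
    exact ⟨x, hx a (by simp), hx b (by simp)⟩
  · rintro ⟨x, ha, hb⟩ q hq
    refine ⟨x, fun c hc => ?_⟩
    rcases hq hc with rfl | rfl
    · exact ha
    · exact hb

theorem realize_conj {φ : L.Formula (α ⊕ β)} {t : ℕ} {M : Type w} [L.Structure M] {x : α → M}
    {a : Fin t × β → M} :
    (conj φ t).Realize (Sum.elim x a) ↔ ∀ i, φ.Realize (Sum.elim x fun b => a (i, b)) := by
  simp only [conj, Formula.realize_iInf, Formula.realize_relabel]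
  refine forall_congr' fun i => ?_
  rw [iff_eq_eq]
  congr 1
  ext (j | j) <;> rfl

/-- An `n` by `n` array with pairwise inconsistent rows and realized paths. -/
def FinArr (φ : L.Formula (α ⊕ β)) (M : Type w) [L.Structure M] (n : ℕ) : Prop :=
  ∃ c : Fin n → Fin n → β → M,
    (∀ ρ i j, i < j → ¬ ∃ x : α → M, φ.Realize (Sum.elim x (c ρ i)) ∧
      φ.Realize (Sum.elim x (c ρ j))) ∧
    ∀ g : Fin n → Fin n, ∃ x : α → M, ∀ ρ, φ.Realize (Sum.elim x (c ρ (g ρ)))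

theorem hasTP2_of_finArr (T : L.Theory) (φ : L.Formula (α ⊕ β))
    (h : ∀ n, ∃ M : Theory.ModelType.{u, v, w} T, FinArr φ M (n + 1)) :
    HasTP2.{u, v, w} T φ 2 := by
  classical
  choose M hM using h
  choose c hc1 hc2 using hM
  let U : Ultrafilter ℕ := hyperfilter ℕ
  let r : ∀ n, ℕ → Fin (n + 1) := fun n i => if h : i < n + 1 then ⟨i, h⟩ else 0
  let P := (U : Filter ℕ).Product fun n => (M n : Type w)
  have : P ⊨ T := ⟨fun σ hσ => (Ultraproduct.sentence_realize σ).2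
    (Eventually.of_forall fun n => Theory.realize_sentence_of_mem T hσ)⟩
  let a : ℕ → ℕ → β → ∀ n, M n := fun i j y n => c n (r n i) (r n j) y
  have key : ∀ (x : α → ∀ n, M n) (i j : ℕ),
      φ.Realize (Sum.elim (fun z => (x z : P)) fun y => (a i j y : P)) ↔
        ∀ᶠ n in U, φ.Realize (Sum.elim (fun z => x z n) (c n (r n i) (r n j))) := by
    intro x i j
    have h1 := Ultraproduct.realize_formula_cast (u := U) φ (Sum.elim x (a i j))
    have h2 : (fun z => ((Sum.elim x (a i j) z : ∀ n, M n) : P)) =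
        Sum.elim (fun z => (x z : P)) fun y => (a i j y : P) := by
      ext (z | z) <;> rfl
    have h3 : ∀ n, (fun z => Sum.elim x (a i j) z n) =
        Sum.elim (fun z => x z n) (c n (r n i) (r n j)) := by
      intro n
      ext (z | z) <;> rfl
    rw [h2] at h1
    simpa only [h3] using h1
  have hev : ∀ k : ℕ, ∀ᶠ n in U, k < n + 1 := fun k =>
    (Nat.hyperfilter_le_atTop) ((eventually_ge_atTop k).mono fun n hn => Nat.lt_succ_of_le hn)
  let A : ℕ → ℕ → β → P := fun i j y => (a i j y : P)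
  have hrow : ∀ i j j', j < j' → ¬ Consistent φ P {A i j, A i j'} := by
    intro i j j' hj hcon
    obtain ⟨x, h1, h2⟩ := consistent_pair.1 hcon
    have hx : ∀ z, ∃ f : ∀ n, M n, (f : P) = x z := fun z => Quotient.exists_rep (x z)
    choose f hf using hx
    have hxf : x = fun z => (f z : P) := funext fun z => (hf z).symm
    rw [hxf] at h1 h2
    obtain ⟨n, ⟨h1, h2⟩, h3⟩ := ((((key f i j).1 h1).and ((key f i j').1 h2)).and (hev j')).exists
    refine hc1 n (r n i) (r n j) (r n j') ?_ ⟨_, h1, h2⟩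
    have h4 : j < n + 1 := hj.trans h3
    simp only [r, dif_pos h3, dif_pos h4, Fin.mk_lt_mk, hj]
  refine ⟨Theory.ModelType.of T P, A, ?_, ?_⟩
  · intro i s hs
    obtain ⟨j, j', hjj, rfl⟩ := Finset.card_eq_two.1 hs
    have h0 : ¬ Consistent φ P (A i '' (({j, j'} : Finset ℕ) : Set ℕ)) := by
      rw [Finset.coe_pair, Set.image_pair]
      rcases lt_or_gt_of_ne hjj with h | h
      · exact hrow i j j' h
      · rw [Set.pair_comm]
        exact hrow i j' j h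
    exact h0
  · intro g q hq
    have hx : ∀ n, ∃ x : α → M n, ∀ ρ : Fin (n + 1),
        φ.Realize (Sum.elim x (c n ρ (r n (g ρ)))) := fun n => hc2 n fun ρ => r n (g ρ)
    choose x hx using hx
    refine ⟨fun z => ((fun n => x n z : ∀ n, M n) : P), fun b hb => ?_⟩
    obtain ⟨i, rfl⟩ := hq hb
    refine (key (fun z n => x n z) i (g i)).2 ((hev i).mono fun n hn => ?_)
    have := hx n ⟨i, hn⟩
    simpa only [r, dif_pos hn] using this

theorem finArr_of_arr {φ : L.Formula (α ⊕ β)} {t n : ℕ} {M : Type w} [L.Structure M]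
    (a b : Fin n → Fin n → Fin t × β → M)
    (h1 : ∀ ρ i j, i < j → ¬ Consistent (conj φ t) M {a ρ i, b ρ j})
    (h2 : ∀ g : Fin n → Fin n, ∃ x : α → M, ∀ ρ, (conj φ t).Realize (Sum.elim x (a ρ (g ρ))) ∧
      (conj φ t).Realize (Sum.elim x (b ρ (g ρ)))) : FinArr (conj φ (t + t)) M n := by
  let c : Fin n → Fin n → Fin (t + t) × β → M := fun ρ i p =>
    Fin.addCases (motive := fun _ => M) (fun s => a ρ i (s, p.2)) (fun s => b ρ i (s, p.2)) p.1
  have hc : ∀ (x : α → M) ρ i, (conj φ (t + t)).Realize (Sum.elim x (c ρ i)) ↔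
      (conj φ t).Realize (Sum.elim x (a ρ i)) ∧ (conj φ t).Realize (Sum.elim x (b ρ i)) := by
    intro x ρ i
    simp only [realize_conj, Fin.forall_fin_add, c, Fin.addCases_left, Fin.addCases_right]
  refine ⟨c, fun ρ i j hij => ?_, fun g => ?_⟩
  · rintro ⟨x, hx1, hx2⟩
    exact h1 ρ i j hij (consistent_pair.2 ⟨x, ((hc x ρ i).1 hx1).1, ((hc x ρ j).1 hx2).2⟩)
  · obtain ⟨x, hx⟩ := h2 g
    exact ⟨x, fun ρ => (hc x ρ _).2 (hx ρ)⟩

/-- A family of types of size at most `card ι` gives a family of tuples of the same size. -/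
theorem family_bound {γ ι : Type} [Fintype ι] {ψ : L.Formula (α ⊕ γ)} {M : Type w} [L.Structure M]
    {k n B : ℕ} (hk : k ≤ Fintype.card ι) {A : Finset (γ → M)} {F : Finset (Finset (γ → M))}
    (hF : IsFamily ψ M k A F) (hB1 : 1 ≤ B)
    (hno : ∀ a b : Fin n → Fin n → γ → M, (∀ ρ i j, i < j → ¬ Consistent ψ M {a ρ i, b ρ j}) →
      ¬ ∀ g : Fin n → Fin n, ∃ x : α → M, ∀ ρ, ψ.Realize (Sum.elim x (a ρ (g ρ))) ∧
        ψ.Realize (Sum.elim x (b ρ (g ρ))))
    (hB : ∀ K : Finset (ι → A), Adj (fun a b : A => ¬ Consistent ψ M {a.1, b.1}) K →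
      NoArr (fun a b : A => ¬ Consistent ψ M {a.1, b.1}) K n n → K.card ≤ B) :
    F.card ≤ B := by
  classical
  by_cases h1 : F.card ≤ 1
  · exact h1.trans hB1
  have hne : ∀ p ∈ F, p.Nonempty := by
    intro p hp
    obtain ⟨q, hq, hqp⟩ := Finset.exists_mem_ne (not_le.1 h1) p
    obtain ⟨a, ha, -⟩ := hF.2 p hp q hq hqp.symm
    exact ⟨a, ha⟩
  have hx : ∀ p : F, ∃ x : ι → A, ∀ a, a ∈ p.1 ↔ ∃ i, (x i).1 = a := by
    rintro ⟨p, hp⟩
    obtain ⟨hpA, hpk, -⟩ := hF.1 p hp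
    have : Nonempty p := (hne p hp).to_subtype
    obtain ⟨e⟩ : Nonempty (p ↪ ι) :=
      Function.Embedding.nonempty_of_card_le (by rw [Fintype.card_coe]; omega)
    refine ⟨fun i => ⟨(Function.invFun e i).1, hpA (Function.invFun e i).2⟩, fun a => ⟨fun ha => ?_, ?_⟩⟩
    · refine ⟨e ⟨a, ha⟩, ?_⟩
      simp only [Function.leftInverse_invFun e.injective ⟨a, ha⟩]
    · rintro ⟨i, rfl⟩
      exact (Function.invFun e i).2
  choose x hx using hx
  have hinj : Function.Injective x := by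
    intro p q hpq
    refine Subtype.ext (Finset.ext fun a => ?_)
    rw [hx p, hx q, hpq]
  have hcard : (Finset.univ.image x).card = F.card := by
    rw [Finset.card_image_of_injective _ hinj, Finset.card_univ, Fintype.card_coe]
  rw [← hcard]
  refine hB _ ?_ ?_
  · intro y hy z hz hyz
    obtain ⟨p, -, rfl⟩ := Finset.mem_image.1 hy
    obtain ⟨q, -, rfl⟩ := Finset.mem_image.1 hz
    obtain ⟨a, ha, b, hb, hab⟩ := hF.2 p.1 p.2 q.1 q.2 fun h => hyz (by rw [Subtype.ext h])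
    obtain ⟨i, rfl⟩ := (hx p a).1 ha
    obtain ⟨j, rfl⟩ := (hx q b).1 hb
    exact ⟨(i, j), hab⟩
  · intro Y hY
    refine hno (fun ρ i => (Y ρ i).1.1) (fun ρ i => (Y ρ i).2.1) hY.1 fun g => ?_
    obtain ⟨y, hy, hg⟩ := hY.2 g
    obtain ⟨p, -, rfl⟩ := Finset.mem_image.1 hy
    obtain ⟨z, hz⟩ := (hF.1 p.1 p.2).2.2 p.1 subset_rfl
    refine ⟨z, fun ρ => ?_⟩
    obtain ⟨⟨i, hi⟩, ⟨j, hj⟩⟩ := hg ρ
    exact ⟨hz _ ((hx p _).2 ⟨i, by rw [hi]⟩), hz _ ((hx p _).2 ⟨j, by rw [hj]⟩)⟩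

theorem exists_cube (k : ℕ) : ∃ t : ℕ, k ≤ t * (t * t) ∧ (t : ℝ) ^ 2 ≤ 4 * (k : ℝ) ^ (2 / 3 : ℝ) := by
  have hk : (0 : ℝ) ≤ k := Nat.cast_nonneg k
  set y : ℝ := (k : ℝ) ^ (1 / 3 : ℝ) with hy
  have hy0 : 0 ≤ y := Real.rpow_nonneg hk _
  have hy3 : y ^ 3 = k := by
    rw [hy, ← Real.rpow_natCast, ← Real.rpow_mul hk]; norm_num
  have hy2 : y ^ 2 = (k : ℝ) ^ (2 / 3 : ℝ) := by
    rw [hy, ← Real.rpow_natCast, ← Real.rpow_mul hk]; norm_num
  refine ⟨⌈y⌉₊, ?_, ?_⟩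
  · have h1 : y ≤ ⌈y⌉₊ := Nat.le_ceil y
    have h2 : (k : ℝ) ≤ (⌈y⌉₊ : ℝ) ^ 3 := hy3 ▸ pow_le_pow_left₀ hy0 h1 3
    have h3 : (k : ℝ) ≤ ((⌈y⌉₊ * (⌈y⌉₊ * ⌈y⌉₊) : ℕ) : ℝ) := by
      push_cast; nlinarith
    exact_mod_cast h3
  · rw [← hy2]
    rcases Nat.eq_zero_or_pos k with h0 | hpos
    · have : y = 0 := by
        have : y ^ 3 = 0 := by rw [hy3, h0]; simp
        exact pow_eq_zero_iff (by norm_num) |>.1 this
      simp [this]
    · have h1 : 1 ≤ y := Real.one_le_rpow (by exact_mod_cast hpos) (by norm_num)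
      have h2 : (⌈y⌉₊ : ℝ) < y + 1 := Nat.ceil_lt_add_one hy0
      have h3 : (0 : ℝ) ≤ ⌈y⌉₊ := Nat.cast_nonneg _
      nlinarith

end Pool.Agent.MP_842ee2_lc
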